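import Pool.Agent.Helper69.UX.StA
import Pool.Agent.Helper69.VX.All

set_option autoImplicit false

namespace Pool.Agent.Helper22.UX

open Finset Filter Pool.Agent.Helper82.CN Pool.Agent.Helper11.PV Pool.Agent.Helper69.VX
  Pool.Agent.Helper69.UX

private theorem cha_step {ι : Type} [Fintype ι] [DecidableEq ι] (p : ℝ) (hp0 : 0 ≤ p) (hp1 : p ≤ 1)
    (F : (ι → Bool) → ℝ) (B : Set ι) (β : ι → ℝ) (T : Finset ι) :
    (∀ i ∈ T, i ∉ B) → (∀ i ∈ T, ∀ L : Set ι, L ⊆ B ∪ T → NN p L (DD F i) ≤ β i) →
    NN p (B ∪ T) F - NN p B F ≤ p * (1 - p) * ∑ i ∈ T, β i := by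
  induction T using Finset.induction_on with
  | empty =>
    intro _ _
    simp
  | insert i T hi ih =>
    intro h1 h2
    have h3 := ih (fun j hj => h1 j (Finset.mem_insert_of_mem hj)) (fun j hj L hL =>
      h2 j (Finset.mem_insert_of_mem hj) L (fun x hx => by
        rcases hL hx with h | h
        · exact Or.inl h
        · exact Or.inr (by simpa using Or.inr h)))
    have hset : (B ∪ ((insert i T : Finset ι) : Set ι)) = insert i (B ∪ (T : Set ι)) := by
      rw [Finset.coe_insert, Set.union_insert]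
    have hni : i ∉ (B ∪ (T : Set ι)) := by
      rintro (h | h)
      · exact h1 i (Finset.mem_insert_self i T) h
      · exact hi h
    have h4 := aBIT p ι F (B ∪ (T : Set ι)) i hp0 hp1 hni
    have h5 := h2 i (Finset.mem_insert_self i T) (B ∪ (T : Set ι)) (by
      rw [hset]
      exact Set.subset_insert _ _)
    rw [hset, Finset.sum_insert hi]
    have h6 : p * (1 - p) * NN p (B ∪ (T : Set ι)) (DD F i) ≤ p * (1 - p) * β i :=
      mul_le_mul_of_nonneg_left h5 (mul_nonneg hp0 (by linarith))
    rw [mul_add]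
    linarith

theorem hCHA : StCHA := by
  classical
  intro p ι _ _ F K hp0 hp1
  have hempty : ∀ ω, AV p ∅ F ω = EE p F := by
    intro ω
    unfold AV
    congr 1
    funext η
    congr 1
    funext i
    exact mix_neg (Set.notMem_empty i)
  have huniv : NN p Set.univ F = EE p (fun ω => F ω ^ 2) := by
    unfold NN
    rw [AV_dep p (dep_univ F) (Set.subset_univ _)]
  have hVV : VV p F = NN p Set.univ F - NN p ∅ F := by
    have h := pyth p ∅ F
    simp only [hempty] at h
    unfold VV
    rw [h, huniv]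
  have hin := cha_step p hp0 hp1 F ∅ (fun i => NN p K (DD F i)) (univ.filter (fun i => i ∈ K))
    (fun i _ => Set.notMem_empty i) (fun i _ L hL => NN_mono hp0 hp1 (fun x hx => by
      have := hL hx
      simpa using this) _)
  have hout := cha_step p hp0 hp1 F K (fun i => EE p (fun ω => DD F i ω ^ 2))
    (univ.filter (fun i => i ∉ K)) (fun i hi => (Finset.mem_filter.1 hi).2)
    (fun i _ L _ => NN_le hp0 hp1 L _)
  have e1 : (∅ ∪ ((univ.filter (fun i => i ∈ K) : Finset ι) : Set ι)) = K := by
    ext i
    simp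
  have e2 : (K ∪ ((univ.filter (fun i => i ∉ K) : Finset ι) : Set ι)) = Set.univ := by
    ext i
    simp [Classical.em]
  rw [e1] at hin
  rw [e2] at hout
  rw [hVV, mul_add]
  linarith

end Pool.Agent.Helper22.UX
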