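import Pool.Agent.Helper69.UX.StD

set_option autoImplicit false

namespace Pool.Agent.Helper22.UX

open Finset Filter Pool.Agent.Helper82.CN Pool.Agent.Helper11.PV Pool.Agent.Helper69.VX
  Pool.Agent.Helper69.UX

private theorem md2_mem {V : Type} [Fintype V] {P : Finset (Finset V)} (h : P ∈ Pt V) :
    (∀ A ∈ P, A.Nonempty) ∧ (∀ A ∈ P, ∀ B ∈ P, A ≠ B → Disjoint A B) ∧
      ∀ v : V, ∃ A ∈ P, v ∈ A := by
  classical
  unfold Pt at h
  exact (Finset.mem_filter.1 h).2

private theorem md2_cardV {V : Type} [Fintype V] [DecidableEq V] (P : Finset (Finset V))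
    (h2 : ∀ A ∈ P, ∀ B ∈ P, A ≠ B → Disjoint A B) (h3 : ∀ v : V, ∃ A ∈ P, v ∈ A) :
    ∑ A ∈ P, A.card = Fintype.card V := by
  have h : P.biUnion id = univ := by
    ext v
    simp only [Finset.mem_biUnion, id, Finset.mem_univ, iff_true]
    exact h3 v
  have h4 : (P.biUnion id).card = ∑ A ∈ P, (id A).card := by
    apply Finset.card_biUnion
    intro A hA B hB hAB
    exact h2 A hA B hB hAB
  rw [h, Finset.card_univ] at h4
  rw [h4]
  simp only [id]

/-- the sizes of the classes of a partition -/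
private theorem md2_card {n : ℕ} {P : Finset (Finset (Fin n))} (hP : P ∈ Pt (Fin n)) :
    ∑ A ∈ P, A.card = n := by
  have h := md2_mem hP
  have h5 := md2_cardV P h.2.1 h.2.2
  rw [Fintype.card_fin] at h5
  exact h5

private theorem md2_FF {p : ℝ} (hp : p < 1) {n T R : ℕ} {κ : ℕ → ℝ} (hκ : Wt n T κ) (c : ℕ) :
    0 ≤ FF p n T R κ c := by
  unfold FF
  refine Finset.sum_nonneg fun r _ => mul_nonneg ?_ ?_
  · have h1 : (0 : ℝ) < 1 - p := by linarith
    have h2 : (0 : ℝ) ≤ (1 / (1 - p)) ^ (r.choose 2) := by positivity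
    positivity
  · refine Finset.sum_nonneg fun v _ => ?_
    unfold gf
    have := hκ.nn v
    positivity

private theorem md2_bb {p : ℝ} (h0 : 0 < p) (h1 : p ≤ 1 - 1 / Real.exp 2) :
    0 < bb p ∧ bb p ≤ 2 ∧ p < 1 := by
  have he : 0 < 1 / Real.exp 2 := by positivity
  have hp : 0 < 1 - p := by linarith
  refine ⟨?_, ?_, by linarith⟩
  · unfold bb
    apply Real.log_pos
    rw [lt_div_iff₀ hp]
    linarith
  · unfold bb
    have : 1 / (1 - p) ≤ Real.exp 2 := by
      rw [div_le_iff₀ hp]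
      have h2 : 1 / Real.exp 2 ≤ 1 - p := by linarith
      rw [div_le_iff₀ (Real.exp_pos 2)] at h2
      linarith
    calc Real.log (1 / (1 - p)) ≤ Real.log (Real.exp 2) := Real.log_le_log (by positivity) this
      _ = 2 := Real.log_exp 2

/-- the number of classes -/
private theorem md2_num (n T k K s C1 C2 : ℝ) (hn : 0 < n) (hT : 0 < T) (hC1 : 0 ≤ C1)
    (hTC : 2 * C1 ≤ T) (hC2 : C2 = 2 * C1 + 3) (hK0 : 0 ≤ K) (hK : (T - C1) * K ≤ n)
    (hk : k ≤ K + s) (hs : s * (T + 1) * T ≤ n) : k * (T + 1) ≤ n * (1 + C2 / T) := by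
  have h1 : K * T ≤ 2 * n := by nlinarith
  have h2 : K ≤ 2 * n / T := by rw [le_div_iff₀ hT]; exact h1
  have h3 : s * (T + 1) ≤ n / T := by rw [le_div_iff₀ hT]; exact hs
  have h4 : (C1 + 1) * K ≤ (C1 + 1) * (2 * n / T) := mul_le_mul_of_nonneg_left h2 (by linarith)
  have h5 : k * (T + 1) ≤ (K + s) * (T + 1) := mul_le_mul_of_nonneg_right hk (by linarith)
  have h6 : n * (1 + C2 / T) = n + (C1 + 1) * (2 * n / T) + n / T := by
    rw [hC2]
    field_simp
    ring
  rw [h6]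
  nlinarith

/-- the exponents -/
private theorem md2_exp (k lam L T S xp c C3 E m : ℝ) (hk : 0 ≤ k) (hlam : 0 ≤ lam) (hL : 0 < L)
    (hx0 : 0 ≤ xp) (hx1 : xp ≤ 1) (hm : m ≤ k) (hc : 0 < c)
    (hT : L * T ≤ 2 * lam + c * L / 16 * lam) (hC3 : 16 * (1 + C3) ≤ c * lam)
    (hE : E ≤ k * (T + 1) * xp + k * C3) (hS : k * (2 / L * xp + c) ≤ S) :
    E + lam * (-S + c / 8 * m) ≤ -(c / 2 * k * lam) := by
  have h1 : T ≤ 2 / L * lam + c / 16 * lam := by
    have : L * T ≤ L * (2 / L * lam + c / 16 * lam) := by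
      have e : L * (2 / L * lam + c / 16 * lam) = 2 * lam + c * L / 16 * lam := by
        field_simp
      rw [e]
      exact hT
    exact le_of_mul_le_mul_left this hL
  have h2 : k * (T + 1) * xp ≤ k * (2 / L * lam + c / 16 * lam + 1) * xp := by
    have : k * (T + 1) ≤ k * (2 / L * lam + c / 16 * lam + 1) :=
      mul_le_mul_of_nonneg_left (by linarith) hk
    exact mul_le_mul_of_nonneg_right this hx0
  have h3 : k * (c / 16 * lam + 1) * xp ≤ k * (c / 16 * lam + 1) * 1 :=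
    mul_le_mul_of_nonneg_left hx1 (by positivity)
  have h4 : k * (1 + C3) ≤ k * (c * lam / 16) := mul_le_mul_of_nonneg_left (by linarith) hk
  have h5 : lam * (k * (2 / L * xp + c)) ≤ lam * S := mul_le_mul_of_nonneg_left hS hlam
  have h6 : lam * (c / 8 * m) ≤ lam * (c / 8 * k) :=
    mul_le_mul_of_nonneg_left (mul_le_mul_of_nonneg_left hm (by positivity)) hlam
  have h7 : 0 ≤ c * (k * lam) := by positivity
  have e1 : k * (2 / L * lam + c / 16 * lam + 1) * xp =
      lam * (k * (2 / L * xp)) + k * (c / 16 * lam + 1) * xp := by ring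
  have e2 : lam * (k * (2 / L * xp + c)) = lam * (k * (2 / L * xp)) + c * (k * lam) := by ring
  have e3 : lam * (-S + c / 8 * m) = -(lam * S) + lam * (c / 8 * m) := by ring
  have e4 : lam * (c / 8 * k) = c * (k * lam) / 8 := by ring
  have e5 : k * (c * lam / 16) = c * (k * lam) / 16 := by ring
  have e6 : k * (c / 16 * lam + 1) * 1 = c * (k * lam) / 16 + k := by ring
  have e7 : c / 2 * k * lam = c * (k * lam) / 2 := by ring
  have e8 : k * (1 + C3) = k + k * C3 := by ring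
  rw [e1] at h2
  rw [e2] at h5
  rw [e3]
  linarith

theorem hMD2 : StFBD → StFAC → StSIZ → StBUD → StMD2 := by
  intro hFBD hFAC hSIZ hBUD p ε C ε₀ ε₁ hp0 hp1 hε0 hε1 hC hε₀ hε₀' hε₁ hε₁'
  obtain ⟨hL0, hL2, hplt⟩ := md2_bb hp0 hp1
  obtain ⟨J, δ, c, hJ, hδ, hc, nB, hB⟩ := hBUD p ε C ε₀ ε₁ hp0 hp1 hε0 hε1 hC hε₀ hε₀' hε₁ hε₁'
  obtain ⟨nF, hF⟩ := hFBD p ε (c / 8) J hp0 hp1 hε0 hε1 (by positivity)
  obtain ⟨L, hL⟩ : ∃ L, L = bb p := ⟨_, rfl⟩
  rw [← hL] at hL0 hL2
  obtain ⟨C1, hC1⟩ : ∃ C1 : ℝ, C1 = 2 / L + δ := ⟨_, rfl⟩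
  obtain ⟨C2, hC2⟩ : ∃ C2 : ℝ, C2 = 2 * C1 + 3 := ⟨_, rfl⟩
  have hC1p : 0 < C1 := by rw [hC1]; positivity
  have hC2p : 0 < C2 := by rw [hC2]; positivity
  have hlog : 0 ≤ Real.log (2 / ε₀) := by
    apply Real.log_nonneg
    rw [le_div_iff₀ hε₀]
    linarith
  obtain ⟨C3, hC3⟩ : ∃ C3 : ℝ, C3 = 2 * C2 * Real.log (2 / ε₀) := ⟨_, rfl⟩
  have hC3p : 0 ≤ C3 := by rw [hC3]; positivity
  obtain ⟨M, hM⟩ : ∃ M : ℕ, 2 * C1 ≤ M ∧ 2 * C2 / ε₀ ≤ M := by
    obtain ⟨M, hM⟩ := exists_nat_ge (max (2 * C1) (2 * C2 / ε₀))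
    exact ⟨M, (le_max_left _ _).trans hM, (le_max_right _ _).trans hM⟩
  obtain ⟨δs, hδs0, hδs1, hδs2, hδs3⟩ : ∃ δs : ℝ, 0 < δs ∧ δs ≤ ε ∧ δs ≤ c * L / 16 ∧
      δs ≤ c / (16 * (1 + C3)) :=
    ⟨min ε (min (c * L / 16) (c / (16 * (1 + C3)))),
      lt_min hε0 (lt_min (by positivity) (by positivity)), min_le_left _ _,
      (min_le_right _ _).trans (min_le_left _ _), (min_le_right _ _).trans (min_le_right _ _)⟩
  obtain ⟨nS, hS⟩ := hSIZ p ε δs M hp0 hp1 hε0 hε1 hδs0
  refine ⟨J, δ, c / 2, hδ, by positivity, max nB (max nF nS), ?_⟩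
  intro C₀ s n T th κ₀ κ lam mu P I hn hW hPar hGood hs0 hs1 hWt hIP hI1 hI2
  have hnB : nB ≤ n := (le_max_left _ _).trans hn
  have hnF : nF ≤ n := ((le_max_left _ _).trans (le_max_right _ _)).trans hn
  have hnS : nS ≤ n := ((le_max_right _ _).trans (le_max_right _ _)).trans hn
  have hbud := hB C₀ s n T th κ₀ lam mu P I hnB hW hPar hGood hs0 hs1 hIP hI1 hI2
  obtain ⟨hFF, _⟩ := hF n T th κ hnF hW hWt
  have hsz := hS n T th hnS hW
  rw [← hL] at hbud
  -- sizes
  obtain ⟨hMT, hMn⟩ := hsz.t4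
  have hTM : (M : ℝ) ≤ T := by exact_mod_cast (by omega : M ≤ T)
  have hT2 : (4 : ℝ) ≤ T := by exact_mod_cast (by omega : 4 ≤ T)
  have hT0 : (0 : ℝ) < T := by linarith
  have hn4 : (1 : ℝ) ≤ n := by exact_mod_cast (by omega : 1 ≤ n)
  have hn0 : (0 : ℝ) < n := by linarith
  have hlam0 : 1 / δs ≤ Real.log n := hsz.t0
  have hlamp : 0 < Real.log n := lt_of_lt_of_le (by positivity) hlam0
  obtain ⟨K, hKd⟩ : ∃ K, K = KK T κ₀ := ⟨_, rfl⟩
  have hK0 : 0 ≤ K := by
    have h1 := (abs_nonneg _).trans hPar.mean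
    rw [← hKd] at h1
    by_contra h
    push Not at h
    have : δ * K < 0 := mul_neg_of_pos_of_neg hδ h
    linarith
  have hKm : (T - C1) * K ≤ n := by
    have h1 := (abs_le.1 hPar.mean).2
    have h2 : ∑ u ∈ range (T + 1), ((T : ℝ) - u) * κ₀ u = T * K - n := by
      simp only [sub_mul]
      rw [Finset.sum_sub_distrib, hPar.sum, ← Finset.mul_sum, hKd]
      rfl
    rw [h2, ← hKd, ← hL] at h1
    have h3 : 0 ≤ th * K := mul_nonneg (by linarith [hW.2.1]) hK0
    rw [hC1]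
    linarith
  have hk : (P.card : ℝ) ≤ K + s := by rw [hKd]; exact hGood.num2
  -- `n^(1-ε) T (T+1) ≤ n`
  have hsT : s * (T + 1) * T ≤ n := by
    have h1 : ((T : ℝ) + 1) * T ≤ (n : ℝ) ^ ε := by
      have h2 : ((T : ℝ) + 1) * T ≤ (T : ℝ) ^ 8 := by
        have h3 : (T : ℝ) + 1 ≤ (T : ℝ) ^ 2 := by nlinarith
        have h4 : (1 : ℝ) ≤ (T : ℝ) ^ 5 := one_le_pow₀ (by linarith)
        calc ((T : ℝ) + 1) * T ≤ (T : ℝ) ^ 2 * T := mul_le_mul_of_nonneg_right h3 hT0.le
          _ = (T : ℝ) ^ 3 * 1 := by ring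
          _ ≤ (T : ℝ) ^ 3 * (T : ℝ) ^ 5 := mul_le_mul_of_nonneg_left h4 (by positivity)
          _ = (T : ℝ) ^ 8 := by ring
      refine h2.trans (hsz.t3.trans ?_)
      exact Real.rpow_le_rpow_of_exponent_le hn4 hδs1
    have h5 : (n : ℝ) ^ (1 - ε) * (n : ℝ) ^ ε = n := by
      rw [← Real.rpow_add hn0, sub_add_cancel, Real.rpow_one]
    calc s * (T + 1) * T = s * ((T + 1) * T) := by ring
      _ ≤ (n : ℝ) ^ (1 - ε) * (n : ℝ) ^ ε := mul_le_mul hs1 h1 (by positivity) (by positivity)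
      _ = n := h5
  have hnum := md2_num n T P.card K s C1 C2 hn0 hT0 hC1p.le (hM.1.trans hTM) hC2 hK0 hKm hk hsT
  have hC2T : C2 / T ≤ ε₀ / 2 := by
    rw [div_le_iff₀ hT0]
    have h1 := hM.2.trans hTM
    rw [div_le_iff₀ hε₀] at h1
    linarith
  have hC2T0 : 0 < C2 / T := by positivity
  -- the lower bound for the number of classes
  have hlow : (n : ℝ) ≤ P.card * (T + 1) := by
    have h1 := md2_card hGood.part
    have h2 : ∑ A ∈ P, A.card ≤ P.card * (T + 1) := by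
      rw [← smul_eq_mul]
      exact Finset.sum_le_card_nsmul P _ (T + 1) (fun A hA => hGood.size A hA)
    rw [h1] at h2
    exact_mod_cast h2
  have hkpos : (0 : ℝ) < P.card := by
    by_contra h
    push Not at h
    have : (P.card : ℝ) * (T + 1) ≤ 0 := mul_nonpos_of_nonpos_of_nonneg h (by linarith)
    linarith
  have hA : (P.card : ℝ) * (T + 1) ≤ 2 * n := by
    refine hnum.trans ?_
    have : 1 + C2 / T ≤ 2 := by linarith
    nlinarith
  -- the vertices in `I`
  have hIs : ((∑ D ∈ I, D.card : ℕ) : ℝ) ≤ I.card * (T + 1) := by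
    have h2 : ∑ A ∈ I, A.card ≤ I.card * (T + 1) := by
      rw [← smul_eq_mul]
      exact Finset.sum_le_card_nsmul I _ (T + 1) (fun A hA => hGood.size A (hIP hA))
    exact_mod_cast h2
  obtain ⟨V, hV⟩ : ∃ V : ℝ, V = ((∑ D ∈ I, D.card : ℕ) : ℝ) := ⟨_, rfl⟩
  rw [← hV] at hIs ⊢
  have hV0 : 0 ≤ V := by rw [hV]; exact Nat.cast_nonneg _
  obtain ⟨x, hx⟩ : ∃ x : ℝ, x = (I.card : ℝ) / P.card := ⟨_, rfl⟩
  rw [← hx] at hbud
  have hx0 : 0 ≤ x := by rw [hx]; positivity
  have hxle : x ≤ 1 - ε₀ := by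
    rw [hx, div_le_iff₀ hkpos]
    exact hI2
  have hxk : (I.card : ℝ) = x * P.card := by rw [hx]; field_simp
  obtain ⟨y, hy⟩ : ∃ y : ℝ, y = x * (1 + C2 / T) := ⟨_, rfl⟩
  have hVy : V ≤ y * n := by
    calc V ≤ I.card * (T + 1) := hIs
      _ = x * (P.card * (T + 1)) := by rw [hxk]; ring
      _ ≤ x * (n * (1 + C2 / T)) := mul_le_mul_of_nonneg_left hnum hx0
      _ = y * n := by rw [hy]; ring
  have hy1 : y ≤ 1 - ε₀ / 2 := by
    rw [hy]
    have : x * (C2 / T) ≤ 1 * (C2 / T) := mul_le_mul_of_nonneg_right (by linarith) hC2T0.le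
    linarith
  refine ⟨hA, ?_, ?_⟩
  · have : V ≤ (1 - ε₀ / 2) * n := hVy.trans (mul_le_mul_of_nonneg_right hy1 hn0.le)
    linarith
  · obtain ⟨_, hF2, hF3, _⟩ := hFAC
    obtain ⟨_, hxp0, hxph, _⟩ := hF2 x hx0 (by linarith)
    have hxp1 : x - ph x ≤ 1 := by linarith
    have hY0 : 0 ≤ V / n := by positivity
    have hYy : V / n ≤ y := by rw [div_le_iff₀ hn0]; exact hVy
    have hxy : x ≤ y := by
      rw [hy]
      have : 0 ≤ x * (C2 / T) := by positivity
      linarith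
    have hylt : y < 1 := by linarith
    have h1 := (hF3 (V / n) y hY0 hYy hylt).1
    have h2 := (hF3 x y hx0 hxy hylt).2
    have h3 : (y - x) * Real.log (1 / (1 - y)) ≤ C2 / T * Real.log (2 / ε₀) := by
      have h4 : Real.log (1 / (1 - y)) ≤ Real.log (2 / ε₀) := by
        apply Real.log_le_log (by apply div_pos one_pos; linarith)
        rw [div_le_div_iff₀ (by linarith) hε₀]
        linarith
      have h5 : y - x ≤ C2 / T := by
        rw [hy]
        have : x * (C2 / T) ≤ 1 * (C2 / T) := mul_le_mul_of_nonneg_right (by linarith) hC2T0.le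
        linarith
      calc (y - x) * Real.log (1 / (1 - y)) ≤ (y - x) * Real.log (2 / ε₀) :=
            mul_le_mul_of_nonneg_left h4 (by linarith)
        _ ≤ C2 / T * Real.log (2 / ε₀) := mul_le_mul_of_nonneg_right h5 hlog
    have hE : n * (V / n - ph (V / n)) ≤ P.card * (T + 1) * (x - ph x) + P.card * C3 := by
      have h6 : V / n - ph (V / n) ≤ (x - ph x) + C2 / T * Real.log (2 / ε₀) := by linarith
      have h7 : (n : ℝ) * (V / n - ph (V / n)) ≤
          n * ((x - ph x) + C2 / T * Real.log (2 / ε₀)) := mul_le_mul_of_nonneg_left h6 hn0.le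
      have h8 : (n : ℝ) * (x - ph x) ≤ P.card * (T + 1) * (x - ph x) :=
        mul_le_mul_of_nonneg_right hlow hxp0
      have h9 : (n : ℝ) * (C2 / T * Real.log (2 / ε₀)) ≤ P.card * C3 := by
        have h10 : (n : ℝ) / T ≤ 2 * P.card := by
          rw [div_le_iff₀ hT0]
          nlinarith
        calc (n : ℝ) * (C2 / T * Real.log (2 / ε₀)) = (n / T) * (C2 * Real.log (2 / ε₀)) := by
              ring
          _ ≤ (2 * P.card) * (C2 * Real.log (2 / ε₀)) :=
              mul_le_mul_of_nonneg_right h10 (by positivity)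
          _ = P.card * C3 := by rw [hC3]; ring
      rw [mul_add] at h7
      linarith
    -- the product
    have hprod : ∏ D ∈ I, FF p n T (RR ε T) κ D.card ≤ Real.exp (Real.log n *
        (-(∑ A ∈ I, (th + ((min (T - A.card) J : ℕ) : ℝ))) + c / 8 * I.card)) := by
      have h11 : ∏ D ∈ I, FF p n T (RR ε T) κ D.card ≤
          ∏ D ∈ I, (n : ℝ) ^ (-(th + ((min (T - D.card) J : ℕ) : ℝ)) + c / 8) :=
        Finset.prod_le_prod (fun D _ => md2_FF hplt hWt D.card)
          (fun D hD => hFF D.card (hGood.size D (hIP hD)))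
      refine h11.trans (le_of_eq ?_)
      rw [← Real.rpow_sum_of_pos hn0, Real.rpow_def_of_pos hn0, Finset.sum_add_distrib,
        Finset.sum_neg_distrib, Finset.sum_const, nsmul_eq_mul]
      congr 2
      ring
    have hTlam : L * T ≤ 2 * Real.log n + c * L / 16 * Real.log n := by
      have h12 := (abs_le.1 hsz.t1).2
      rw [← hL] at h12
      have h13 : δs * Real.log n ≤ c * L / 16 * Real.log n :=
        mul_le_mul_of_nonneg_right hδs2 hlamp.le
      linarith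
    have hC3lam : 16 * (1 + C3) ≤ c * Real.log n := by
      have h14 : 1 ≤ δs * Real.log n := by
        rw [div_le_iff₀ hδs0] at hlam0
        linarith
      have h15 : δs * (16 * (1 + C3)) ≤ c := by
        rw [← le_div_iff₀ (by positivity)]
        exact hδs3
      have h16 : 0 < 16 * (1 + C3) := by positivity
      calc 16 * (1 + C3) ≤ 16 * (1 + C3) * (δs * Real.log n) := le_mul_of_one_le_right h16.le h14
        _ = δs * (16 * (1 + C3)) * Real.log n := by ring
        _ ≤ c * Real.log n := mul_le_mul_of_nonneg_right h15 hlamp.le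
    have hm : (I.card : ℝ) ≤ P.card := by exact_mod_cast Finset.card_le_card hIP
    have hfin := md2_exp P.card (Real.log n) L T
      (∑ A ∈ I, (th + ((min (T - A.card) J : ℕ) : ℝ))) (x - ph x) c C3
      (n * (V / n - ph (V / n))) I.card hkpos.le hlamp.le hL0 hxp0 hxp1 hm hc hTlam hC3lam hE hbud
    calc Real.exp (n * (V / n - ph (V / n))) * ∏ D ∈ I, FF p n T (RR ε T) κ D.card
        ≤ Real.exp (n * (V / n - ph (V / n))) * Real.exp (Real.log n *
          (-(∑ A ∈ I, (th + ((min (T - A.card) J : ℕ) : ℝ))) + c / 8 * I.card)) :=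
          mul_le_mul_of_nonneg_left hprod (Real.exp_pos _).le
      _ = Real.exp (n * (V / n - ph (V / n)) + Real.log n *
          (-(∑ A ∈ I, (th + ((min (T - A.card) J : ℕ) : ℝ))) + c / 8 * I.card)) := by
          rw [← Real.exp_add]
      _ ≤ Real.exp (-(c / 2 * P.card * Real.log n)) := Real.exp_le_exp.2 hfin

end Pool.Agent.Helper22.UX
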