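import Pool.Agent.Helper69.UX.StC

set_option autoImplicit false

namespace Pool.Agent.Helper22.UX

open Finset Filter Pool.Agent.Helper82.CN Pool.Agent.Helper11.PV Pool.Agent.Helper69.VX
  Pool.Agent.Helper69.UX

private theorem mgx_h (y c : ℝ) : y + y * Real.log (1 / y) / c = y + Real.negMulLog y / c := by
  rw [Real.negMulLog, one_div, Real.log_inv]
  ring

theorem hMGX : StMGB → StMGM → StMGX := by
  intro hMGB hMGM a M θ H hLC hθ hH y hy0 hy1
  obtain ⟨_, _, _, hU, hZ0, hZs⟩ := hMGM a M hLC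
  have hnn : ∀ i ∈ range M, 0 ≤ a i := fun i hi => (hLC.pos i (Finset.mem_range.1 hi)).le
  have hU0 : 0 ≤ Ut a M 0 := by
    unfold Ut
    refine Finset.sum_nonneg fun i hi => mul_nonneg (Nat.cast_nonneg _) (hnn i hi)
  have hHpos : 0 < H := by rw [hH]; linarith
  have hZM : Zt a M M = 0 := by simp [Zt]
  have hUM : Ut a M M = 0 := by
    unfold Ut
    refine Finset.sum_eq_zero fun i hi => ?_
    have : i - M = 0 := by
      have := Finset.mem_range.1 hi
      omega
    rw [this]
    simp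
  have hZnn : ∀ j, 0 ≤ Zt a M j := by
    intro j
    unfold Zt
    refine Finset.sum_nonneg fun i hi => hnn i ?_
    rw [Finset.mem_Ico] at hi
    exact Finset.mem_range.2 hi.2
  -- the interval of `y`
  have hex : ∃ k, Zt a M k < y := ⟨M, by rw [hZM]; exact hy0⟩
  obtain ⟨k, hk, hkmin⟩ : ∃ k, Zt a M k < y ∧ ∀ m < k, ¬ Zt a M m < y := by
    classical
    exact ⟨Nat.find hex, Nat.find_spec hex, fun m hm => Nat.find_min hex hm⟩
  have hk0 : k ≠ 0 := by
    intro h
    rw [h, hZ0] at hk
    linarith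
  obtain ⟨j, rfl⟩ : ∃ j, k = j + 1 := ⟨k - 1, by omega⟩
  have hyj : y ≤ Zt a M j := not_lt.1 (hkmin j (by omega))
  have hjM : j < M := by
    by_contra h
    push Not at h
    have : Zt a M j = 0 := by
      unfold Zt
      rw [Finset.Ico_eq_empty (by omega), Finset.sum_empty]
    linarith
  refine ⟨j, ?_, ?_⟩
  · rw [le_div_iff₀ hy0]
    calc (j : ℝ) * y ≤ j * Zt a M j := mul_le_mul_of_nonneg_left hyj (Nat.cast_nonneg _)
      _ = ∑ i ∈ Ico j M, (j : ℝ) * a i := by rw [Zt, Finset.mul_sum]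
      _ ≤ ∑ i ∈ Ico j M, ((i - 0 : ℕ) : ℝ) * a i := by
          refine Finset.sum_le_sum fun i hi => ?_
          rw [Finset.mem_Ico] at hi
          refine mul_le_mul_of_nonneg_right ?_ (hnn i (Finset.mem_range.2 hi.2))
          rw [Nat.sub_zero]
          exact_mod_cast hi.1
      _ ≤ Ut a M 0 := by
          unfold Ut
          refine Finset.sum_le_sum_of_subset_of_nonneg ?_ ?_
          · intro i hi
            rw [Finset.mem_Ico] at hi
            exact Finset.mem_range.2 hi.2
          · intro i hi _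
            exact mul_nonneg (Nat.cast_nonneg _) (hnn i hi)
      _ ≤ H := by rw [hH]; linarith
  · obtain ⟨c, hc⟩ : ∃ c : ℝ, c = 1 + 1 / (12 * H ^ 2) := ⟨_, rfl⟩
    have hcpos : 0 < c := by rw [hc]; positivity
    rw [← hc, mgx_h]
    have hB1 := hMGB a M θ H hLC hθ hH j hjM
    have hB1' : (θ + j) * Zt a M j + Ut a M j ≤
        H * (Zt a M j + Real.negMulLog (Zt a M j) / c) := by
      rw [← mgx_h, hc]
      exact hB1
    have hB2' : (θ + j) * Zt a M (j + 1) + Ut a M j ≤
        H * (Zt a M (j + 1) + Real.negMulLog (Zt a M (j + 1)) / c) := by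
      have e : (θ + j) * Zt a M (j + 1) + Ut a M j =
          (θ + ((j + 1 : ℕ) : ℝ)) * Zt a M (j + 1) + Ut a M (j + 1) := by
        rw [hU j]
        push_cast
        ring
      rw [e]
      rcases Nat.lt_or_ge (j + 1) M with hj | hj
      · rw [← mgx_h, hc]
        exact hMGB a M θ H hLC hθ hH (j + 1) hj
      · have : j + 1 = M := by omega
        rw [this, hZM, hUM, Real.negMulLog_zero]
        simp
    obtain ⟨z0, hz0⟩ : ∃ z0, z0 = Zt a M (j + 1) := ⟨_, rfl⟩
    obtain ⟨z1, hz1⟩ : ∃ z1, z1 = Zt a M j := ⟨_, rfl⟩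
    have hz0nn : 0 ≤ z0 := by rw [hz0]; exact hZnn _
    have hz1nn : 0 ≤ z1 := by rw [hz1]; exact hZnn _
    rw [← hz0] at hk hB2'
    rw [← hz1] at hyj hB1'
    have hd : 0 < z1 - z0 := by linarith
    obtain ⟨s, hs⟩ : ∃ s : ℝ, s = (y - z0) / (z1 - z0) := ⟨_, rfl⟩
    have hs0 : 0 ≤ s := by rw [hs]; exact div_nonneg (by linarith) hd.le
    have hs1 : s ≤ 1 := by rw [hs, div_le_one hd]; linarith
    have hys : y = (1 - s) * z0 + s * z1 := by
      have : s * (z1 - z0) = y - z0 := by rw [hs]; exact div_mul_cancel₀ _ hd.ne'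
      linarith
    have hconc := Real.concaveOn_negMulLog.2 (Set.mem_Ici.2 hz0nn) (Set.mem_Ici.2 hz1nn)
      (sub_nonneg.2 hs1) hs0 (by ring)
    simp only [smul_eq_mul] at hconc
    rw [← hys] at hconc
    have h1 : (1 - s) * ((θ + j) * z0 + Ut a M j) ≤
        (1 - s) * (H * (z0 + Real.negMulLog z0 / c)) :=
      mul_le_mul_of_nonneg_left hB2' (by linarith)
    have h2 : s * ((θ + j) * z1 + Ut a M j) ≤ s * (H * (z1 + Real.negMulLog z1 / c)) :=
      mul_le_mul_of_nonneg_left hB1' hs0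
    have h3 : H * (((1 - s) * Real.negMulLog z0 + s * Real.negMulLog z1) / c) ≤
        H * (Real.negMulLog y / c) :=
      mul_le_mul_of_nonneg_left (div_le_div_of_nonneg_right hconc hcpos.le) hHpos.le
    calc (θ + j) * y + Ut a M j
        = (1 - s) * ((θ + j) * z0 + Ut a M j) + s * ((θ + j) * z1 + Ut a M j) := by
          rw [hys]; ring
      _ ≤ (1 - s) * (H * (z0 + Real.negMulLog z0 / c)) +
          s * (H * (z1 + Real.negMulLog z1 / c)) := add_le_add h1 h2
      _ = H * ((1 - s) * z0 + s * z1) +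
          H * (((1 - s) * Real.negMulLog z0 + s * Real.negMulLog z1) / c) := by ring
      _ ≤ H * y + H * (Real.negMulLog y / c) := by
          rw [← hys]
          exact add_le_add (le_refl _) h3
      _ = H * (y + Real.negMulLog y / c) := by ring

end Pool.Agent.Helper22.UX
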